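import Pool.Agent.ZPK.StmtsA
import Pool.Agent.Helper51_ZP3.Near

/-!
Squad ZPK, row BLV: bounded level.
-/

set_option autoImplicit false

namespace Pool.Agent.ZPK.H85

open Polynomial Pool.Agent.ZPT Pool.Agent.ZP3 Pool.Agent.ZP3.H51

/-- A bound for finitely many numbers. -/
theorem exbd {α : Type} [Finite α] (F : α → ℕ) : ∃ M, ∀ a, F a ≤ M := Finite.exists_le F

theorem dep_trans {K : Type} [NormedField K] {q q' q'' : K} (h : Dep q q') (h' : Dep q' q'') :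
    Dep q q'' := by
  obtain ⟨a, b, ha, hb, hab⟩ := h
  obtain ⟨c, d, hc, hd, hcd⟩ := h'
  refine ⟨a * c, d * b, Nat.mul_pos ha hc, Nat.mul_pos hd hb, ?_⟩
  rw [pow_mul, hab, ← pow_mul, mul_comm b c, pow_mul, hcd, ← pow_mul]

theorem blv (sim : SimStmt) (unf : UnfStmt) (lrg : LrgStmt) (dis : DisStmt) (hNN : NNStmt)
    (hIK : IKStmt) (hIS : ISStmt) (hTI : TIStmt) (hTS : TSStmt) (hTQ : TQStmt) (hEH : EHStmt) :
    BlvStmt := by
  classical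
  intro Gn hLoc U Psi hU hPC n P hP hdim hQ B
  choose m N e f p1 hm hBr hsim using sim n P hP hdim hQ
  have hl0 := fun b l => lrg n b (e b l) (f b l) (hBr b l)
  choose S p2 hS hlrg using hl0
  have hu0 := fun (b : Fin n) (l : Fin (N b)) => unf (S b l ∪ B)
  choose p3 hunf using hu0
  have hc0 := fun b l => hLoc U hU n b (e b l) (f b l) (hBr b l)
  choose p4 hloc using hc0
  obtain ⟨P1, hP1⟩ := exbd p1
  obtain ⟨P2, hP2⟩ := exbd fun w : (b : Fin n) × Fin (N b) => p2 w.1 w.2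
  obtain ⟨P3, hP3⟩ := exbd fun w : (b : Fin n) × Fin (N b) => p3 w.1 w.2
  obtain ⟨P4, hP4⟩ := exbd fun w : (b : Fin n) × Fin (N b) => p4 w.1 w.2
  let φ : Fin (Fintype.card ((b : Fin n) × Fin (N b))) ≃ ((b : Fin n) × Fin (N b)) :=
    (Fintype.equivFin _).symm
  refine ⟨7 + P1 + P2 + P3 + P4, Fintype.card ((b : Fin n) × Fin (N b)), fun w => (φ w).1,
    fun w => e (φ w).1 (φ w).2, fun w => f (φ w).1 (φ w).2, fun w => hBr _ _, ?_⟩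
  intro p hp hpp K _ _ _ _ _ hExt hPK ι c hcB hc hgen
  have hp5 : 5 ≤ p := by omega
  have hpR : (0 : ℝ) < p := by exact_mod_cast hp.pos
  have hp1R : (1 : ℝ) < p := by exact_mod_cast hp.one_lt
  have hpK : (p : K) ≠ 0 := by exact_mod_cast hp.ne_zero
  have hpn : ‖(p : K)‖ = (p : ℝ)⁻¹ := norm_p hp hExt
  -- the numbers `g i`
  obtain ⟨g, hgd⟩ : ∃ g : Fin n → K, g = fun i => (p : K) * ι (c i) := ⟨_, rfl⟩
  have hgi : ∀ i, g i = (p : K) * ι (c i) := fun i => by rw [hgd]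
  have hgen2 : ∀ w : (b : Fin n) × Fin (N b),
      Gn p K n (e w.1 w.2) (fun i => cf ι (f w.1 w.2 i)) g ∧
      Di (e w.1 w.2) (fun i => cf ι (f w.1 w.2 i)) g := by
    intro w
    obtain ⟨w', rfl⟩ := φ.surjective w
    rw [hgd]
    exact hgen w'
  have hgc : ∀ i, g i / (p : K) = ι (c i) := by
    intro i
    rw [hgi]
    field_simp
  have hg1 : ∀ i, ‖g i‖ = 1 := by
    intro i
    rw [hgi, norm_mul, hpn, hc, inv_mul_cancel₀ hpR.ne']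
  have hc1 : ∀ i, 1 < ‖ι (c i)‖ := by
    intro i
    rw [hc]
    exact hp1R
  -- the local theorem for every branch
  have hL : ∀ (b : Fin n) (l : Fin (N b)), _ := fun b l =>
    hloc b l p hp (by have := hP4 ⟨b, l⟩; simp only at this; omega) K hExt ι
      ((Subfield.closure ((S b l ∪ B : Finset Qb) : Set Qb)).map ι)
      (hunf b l p hp (by have := hP3 ⟨b, l⟩; simp only at this; omega) K hExt ι)
      (fun i k => Subfield.mem_map.2 ⟨_, Subfield.closure_mono (by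
        rw [Finset.coe_union]; exact Set.subset_union_left) (hS b l i k), rfl⟩) g
      (fun i => ⟨by
        rw [hgi]
        exact mul_mem (natCast_mem _ p) (Subfield.mem_map.2 ⟨_, Subfield.closure_mono (by
          rw [Finset.coe_union]; exact Set.subset_union_right) (hcB i), rfl⟩), hg1 i⟩)
      (hgen2 ⟨b, l⟩).1
  have h4 : ∀ (b : Fin n) (l : Fin (N b)) (w : Fin n × Fin n × Fin n × Fin n), ∃ M : ℕ,
      w.1 ≠ w.2.1 → w.1 ≠ w.2.2.1 → w.1 ≠ w.2.2.2 → w.2.1 ≠ w.2.2.1 → w.2.1 ≠ w.2.2.2 →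
      w.2.2.1 ≠ w.2.2.2 → b ∈ ({w.1, w.2.1, w.2.2.1, w.2.2.2} : Set (Fin n)) →
      (1 ≤ e b l w.1 ∨ 1 ≤ e b l w.2.1) → (1 ≤ e b l w.2.2.1 ∨ 1 ≤ e b l w.2.2.2) →
      ∀ (t : K) (q : Fin n → K), 0 < ‖t‖ → ‖t‖ < 1 →
      (∀ u ∈ ({w.1, w.2.1, w.2.2.1, w.2.2.2} : Set (Fin n)),
        At p U (e b l u) (cf ι (f b l u)) (g u) t (q u)) →
      Bc p b (e b l) t {w.1, w.2.1, w.2.2.1, w.2.2.2} → Dep (q w.1) (q w.2.1) →
      Dep (q w.2.2.1) (q w.2.2.2) →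
      Bd M (q w.1) (q w.2.1) ∨ Bd M (q w.2.2.1) (q w.2.2.2) := by
    intro b l w
    by_cases h1 : w.1 ≠ w.2.1 ∧ w.1 ≠ w.2.2.1 ∧ w.1 ≠ w.2.2.2 ∧ w.2.1 ≠ w.2.2.1 ∧
      w.2.1 ≠ w.2.2.2 ∧ w.2.2.1 ≠ w.2.2.2 ∧ b ∈ ({w.1, w.2.1, w.2.2.1, w.2.2.2} : Set (Fin n)) ∧
      (1 ≤ e b l w.1 ∨ 1 ≤ e b l w.2.1) ∧ (1 ≤ e b l w.2.2.1 ∨ 1 ≤ e b l w.2.2.2)
    · obtain ⟨a1, a2, a3, a4, a5, a6, a7, a8, a9⟩ := h1
      obtain ⟨M, hM⟩ := (hL b l).1 _ _ _ _ a1 a2 a3 a4 a5 a6 a7 a8 a9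
      exact ⟨M, fun _ _ _ _ _ _ _ _ _ => hM⟩
    · exact ⟨0, fun a1 a2 a3 a4 a5 a6 a7 a8 a9 =>
        absurd ⟨a1, a2, a3, a4, a5, a6, a7, a8, a9⟩ h1⟩
  have h3 : ∀ (b : Fin n) (l : Fin (N b)) (w : Fin n × Fin n × Fin n), ∃ M : ℕ,
      w.1 ≠ w.2.1 → w.2.1 ≠ w.2.2 → w.1 ≠ w.2.2 → b ∈ ({w.1, w.2.1, w.2.2} : Set (Fin n)) →
      ((1 ≤ e b l w.1 ∧ 1 ≤ e b l w.2.1) ∨ (1 ≤ e b l w.1 ∧ 1 ≤ e b l w.2.2) ∨
        (1 ≤ e b l w.2.1 ∧ 1 ≤ e b l w.2.2)) →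
      ∀ (t : K) (q : Fin n → K), 0 < ‖t‖ → ‖t‖ < 1 →
      (∀ u ∈ ({w.1, w.2.1, w.2.2} : Set (Fin n)),
        At p U (e b l u) (cf ι (f b l u)) (g u) t (q u)) →
      Bc p b (e b l) t {w.1, w.2.1, w.2.2} → Dep (q w.1) (q w.2.1) →
      Dep (q w.2.1) (q w.2.2) → Dep (q w.1) (q w.2.2) →
      Bd M (q w.1) (q w.2.1) ∨ Bd M (q w.2.1) (q w.2.2) ∨ Bd M (q w.1) (q w.2.2) := by
    intro b l w
    by_cases h1 : w.1 ≠ w.2.1 ∧ w.2.1 ≠ w.2.2 ∧ w.1 ≠ w.2.2 ∧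
      b ∈ ({w.1, w.2.1, w.2.2} : Set (Fin n)) ∧
      ((1 ≤ e b l w.1 ∧ 1 ≤ e b l w.2.1) ∨ (1 ≤ e b l w.1 ∧ 1 ≤ e b l w.2.2) ∨
        (1 ≤ e b l w.2.1 ∧ 1 ≤ e b l w.2.2))
    · obtain ⟨a1, a2, a3, a4, a5⟩ := h1
      obtain ⟨M, hM⟩ := (hL b l).2 _ _ _ a1 a2 a3 a4 a5
      exact ⟨M, fun _ _ _ _ _ => hM⟩
    · exact ⟨0, fun a1 a2 a3 a4 a5 => absurd ⟨a1, a2, a3, a4, a5⟩ h1⟩
  choose M4 hM4 using h4
  choose M3 hM3 using h3
  obtain ⟨Q4, hQ4⟩ := exbd fun w : ((b : Fin n) × Fin (N b)) × (Fin n × Fin n × Fin n × Fin n) =>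
    M4 w.1.1 w.1.2 w.2
  obtain ⟨Q3, hQ3⟩ := exbd fun w : ((b : Fin n) × Fin (N b)) × (Fin n × Fin n × Fin n) =>
    M3 w.1.1 w.1.2 w.2
  -- level of two integral coordinates
  have hlev : ∀ u v : Fin n, ∃ s t : ℕ, 1 ≤ s ∧ 1 ≤ t ∧
      ∀ f f' q q' : K, ‖f‖ ≤ 1 → ‖f'‖ ≤ 1 → 0 < ‖q‖ → ‖q‖ < 1 → 0 < ‖q'‖ → ‖q'‖ < 1 →
      jv U q = f + ι (c u) → jv U q' = f' + ι (c v) →
      (∃ A B : ℕ, 1 ≤ A ∧ 1 ≤ B ∧ q ^ A = q' ^ B) → q ^ s = q' ^ t := fun u v =>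
    hNN U hU p hp hp5 K hExt ι 1 (le_refl _) _ _ (hc1 u) (hc1 v)
  choose s t hs ht hst using hlev
  obtain ⟨N1, hN1⟩ := exbd fun w : Fin n × Fin n => s w.1 w.2 * t w.1 w.2
  refine ⟨N1 + Q4 * Q4 + Q3 * Q3, ?_⟩
  intro y hy hA
  obtain ⟨z, hz⟩ : ∃ z : Fin n → Qb, ∀ i, z i = y i + c i := ⟨_, fun _ => rfl⟩
  have hzC : ∀ i, ((z i : Qb) : ℂ) = (y i : ℂ) + (c i : ℂ) := by
    intro i
    rw [hz]
    push_cast
    rfl
  have hzK : ∀ i, ι (z i) = ι (y i) + ι (c i) := fun i => by rw [hz, map_add]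
  have htrans : ∀ (u v : Fin n) (s t : ℕ) (q q' : K), 1 ≤ s → 1 ≤ t → 0 < ‖q‖ → ‖q‖ < 1 →
      0 < ‖q'‖ → ‖q'‖ < 1 → jv U q = ι (z u) → jv U q' = ι (z v) → q ^ s = q' ^ t →
      ev2 (Psi (s * t)) ((y u : ℂ) + (c u : ℂ)) ((y v : ℂ) + (c v : ℂ)) = 0 := by
    intro u v s t q q' hs1 ht1 hq0 hq1 hq0' hq1' hj hj' hqq
    have h2 := hTQ U Psi K hPK s t hs1 ht1 q q' hq0 hq1 hq0' hq1' hqq
    rw [hj, hj', ← hEH Qb K ι] at h2
    have h3 : ev2 (Psi (s * t)) (z u) (z v) = 0 := ι.injective (by rw [h2, map_zero])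
    have h4 := hEH Qb ℂ (algebraMap Qb ℂ) (Psi (s * t)) (z u) (z v)
    rw [h3, map_zero] at h4
    rw [← hzC, ← hzC]
    exact h4.symm
  -- facts about branches
  have hlr : ∀ (b : Fin n) (l : Fin (N b)), _ := fun b l =>
    hlrg b l p hp (by have := hP2 ⟨b, l⟩; simp only at this; omega) K hExt ι
  have hsm : ∀ b : Fin n, Sim P b (m b) (N b) (e b) (f b) ι := fun b =>
    hsim b p hp (by have := hP1 b; omega) K hExt ι
  have hbr : ∀ b : Fin n, 1 < ‖ι (y b)‖ → ∃ (t : K) (l : Fin (N b)), 0 < ‖t‖ ∧ ‖t‖ < 1 ∧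
      e b l b = m b ∧ ‖t‖ ^ m b = ‖ι (y b)‖⁻¹ ∧
      ∀ i, ι (y i) = evK ι (f b l i) t / t ^ e b l i := by
    intro b hb
    have hyb : ι (y b) ≠ 0 := by
      intro h0
      rw [h0, norm_zero] at hb
      linarith
    obtain ⟨t, ht⟩ := IsAlgClosed.exists_pow_nat_eq (ι (y b))⁻¹ (hm b)
    have htn : ‖t‖ ^ m b = ‖ι (y b)‖⁻¹ := by rw [← norm_pow, ht, norm_inv]
    have hlt : ‖ι (y b)‖⁻¹ < 1 := inv_lt_one_of_one_lt₀ hb
    have ht0 : t ≠ 0 := by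
      intro h0
      rw [h0, zero_pow (by have := hm b; omega)] at ht
      exact inv_ne_zero hyb ht.symm
    have ht1 : ‖t‖ < 1 := by
      by_contra hcon
      push Not at hcon
      have h1 : 1 ≤ ‖t‖ ^ m b := one_le_pow₀ hcon
      rw [htn] at h1
      linarith
    obtain ⟨l, hl1, hl2⟩ := hsm b y hy t (norm_pos_iff.2 ht0) ht1 (by
      rw [ht, one_div, inv_inv])
    exact ⟨t, l, norm_pos_iff.2 ht0, ht1, hl1, htn, hl2⟩
  -- norm of a coordinate on a branch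
  have hnorm : ∀ (b : Fin n) (l : Fin (N b)) (t : K), 0 < ‖t‖ → ‖t‖ < 1 →
      (∀ i, ι (y i) = evK ι (f b l i) t / t ^ e b l i) → ∀ u,
      (1 < ‖ι (y u)‖ → 1 ≤ e b l u) ∧ (Cr p (e b l u) t → ‖ι (y u)‖ = p) := by
    intro b l t ht0 ht1 hi u
    obtain ⟨-, -, hlt⟩ := hlr b l
    obtain ⟨h1, -, h3⟩ := hlt t u ht1
    constructor
    · intro h
      by_contra hcon
      have h0 : e b l u = 0 := by omega
      rw [hi u, h0, pow_zero, div_one] at h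
      exact absurd h1 (not_le.2 h)
    · intro h
      have h0 : 1 ≤ e b l u := by
        by_contra hcon
        have h0 : e b l u = 0 := by omega
        unfold Cr at h
        rw [h0, pow_zero] at h
        have h5 : (p : ℝ)⁻¹ < 1 := inv_lt_one_of_one_lt₀ hp1R
        linarith
      unfold Cr at h
      rw [hi u, norm_div, norm_pow, h, h3 h0, one_div, inv_inv]
  -- a choice of the base coordinate
  have hdz : ∀ u, ‖ι (y u)‖ ≠ p → 1 < ‖ι (z u)‖ := by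
    intro u hu
    rw [hzK, IsUltrametricDist.norm_add_eq_max_of_norm_ne_norm (by rw [hc]; exact hu), hc]
    exact hp1R.trans_le (le_max_right _ _)
  have hpair : ∀ u v : Fin n, u ≠ v → 1 < ‖ι (z u)‖ ∨ 1 < ‖ι (z v)‖ := by
    intro u v huv
    by_contra hcon
    push Not at hcon
    have hyu : ‖ι (y u)‖ = p := by
      by_contra h
      exact absurd (hdz u h) (not_lt.2 hcon.1)
    obtain ⟨t, l, ht0, ht1, -, -, hi⟩ := hbr u (by rw [hyu]; exact hp1R)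
    obtain ⟨h1, h2, h3⟩ := hlr u l
    have h4 := dis p hp K hExt n (e u l) (fun i => cf ι (f u l i)) g
      (fun i => evK ι (f u l i) t) t u v huv (hgen2 ⟨u, l⟩).2 hg1 (fun i => (h3 t i ht1).1)
      (fun i => (h3 t i ht1).2.2) (fun i => ((h3 t i ht1).2.1).trans_lt ht1) ht0 ht1
    rw [← hi u, ← hi v, hgc, hgc, ← hzK, ← hzK] at h4
    rcases h4 with h4 | h4
    · exact absurd h4 (not_lt.2 hcon.1)
    · exact absurd h4 (not_lt.2 hcon.2)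
  have hik : ∀ u v, u ≠ v → Isog ((y u : ℂ) + (c u : ℂ)) ((y v : ℂ) + (c v : ℂ)) →
      1 < ‖ι (z u)‖ ∧ 1 < ‖ι (z v)‖ ∧ KI U (ι (z u)) (ι (z v)) := by
    intro u v huv h
    have h1 : ∀ u v, Isog ((y u : ℂ) + (c u : ℂ)) ((y v : ℂ) + (c v : ℂ)) →
        1 < ‖ι (z u)‖ → 1 < ‖ι (z v)‖ ∧ KI U (ι (z u)) (ι (z v)) := fun u v h h1 =>
      hIK U Psi hU hPC p hp hp5 K hExt hPK ι (z u) (z v) (by rw [hzC, hzC]; exact h) h1
    have h2 : 1 < ‖ι (z u)‖ := by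
      rcases hpair u v huv with h2 | h2
      · exact h2
      · exact (h1 v u (hIS _ _ h) h2).1
    exact ⟨h2, h1 u v h h2⟩
  -- Tate parameters
  have hq0 : ∀ u, ∃ q : K, 1 < ‖ι (z u)‖ → 0 < ‖q‖ ∧ ‖q‖ < 1 ∧ jv U q = ι (z u) := by
    intro u
    by_cases h : 1 < ‖ι (z u)‖
    · obtain ⟨q, h1⟩ := hTS U hU p hp hp5 K hExt _ h
      exact ⟨q, fun _ => h1⟩
    · exact ⟨0, fun h' => absurd h' h⟩
  choose q hq using hq0
  have hdep : ∀ u v, u ≠ v → Isog ((y u : ℂ) + (c u : ℂ)) ((y v : ℂ) + (c v : ℂ)) →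
      1 < ‖ι (z u)‖ ∧ 1 < ‖ι (z v)‖ ∧ Dep (q u) (q v) := by
    intro u v huv h
    obtain ⟨h1, h2, q₁, q₂, h10, h11, h20, h21, hj1, hj2, hd⟩ := hik u v huv h
    obtain ⟨b1, b2, b3⟩ := hq u h1
    obtain ⟨c1, c2, c3⟩ := hq v h2
    have e1 : q₁ = q u := hTI U hU p hp hp5 K hExt _ _ h10 h11 b1 b2 (hj1.trans b3.symm)
    have e2 : q₂ = q v := hTI U hU p hp hp5 K hExt _ _ h20 h21 c1 c2 (hj2.trans c3.symm)
    rw [e1, e2] at hd
    exact ⟨h1, h2, hd⟩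
  have key3 : ∀ u v, u ≠ v → 1 < ‖ι (z u)‖ → 1 < ‖ι (z v)‖ → Dep (q u) (q v) →
      ‖ι (y u)‖ ≤ 1 → ‖ι (y v)‖ ≤ 1 →
      ∃ u v : Fin n, u ≠ v ∧ ∃ m : ℕ, 1 ≤ m ∧ m ≤ N1 + Q4 * Q4 + Q3 * Q3 ∧
        ev2 (Psi m) ((y u : ℂ) + (c u : ℂ)) ((y v : ℂ) + (c v : ℂ)) = 0 := by
    intro u v huv h1 h2 hd hu hv
    obtain ⟨b1, b2, b3⟩ := hq u h1
    obtain ⟨c1, c2, c3⟩ := hq v h2
    have h3 := hst u v _ _ (q u) (q v) hu hv b1 b2 c1 c2 (by rw [b3, hzK]) (by rw [c3, hzK]) hd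
    have h4 := hN1 (u, v)
    simp only at h4
    exact ⟨u, v, huv, s u v * t u v, Nat.mul_pos (hs u v) (ht u v), by omega,
      htrans u v _ _ (q u) (q v) (hs u v) (ht u v) b1 b2 c1 c2 b3 c3 h3⟩
  have key5 : ∀ (u v : Fin n) (M : ℕ), u ≠ v → 1 < ‖ι (z u)‖ → 1 < ‖ι (z v)‖ →
      (M ≤ Q4 ∨ M ≤ Q3) → Bd M (q u) (q v) →
      ∃ u v : Fin n, u ≠ v ∧ ∃ m : ℕ, 1 ≤ m ∧ m ≤ N1 + Q4 * Q4 + Q3 * Q3 ∧
        ev2 (Psi m) ((y u : ℂ) + (c u : ℂ)) ((y v : ℂ) + (c v : ℂ)) = 0 := by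
    intro u v M huv h1 h2 hM hB
    obtain ⟨b1, b2, b3⟩ := hq u h1
    obtain ⟨c1, c2, c3⟩ := hq v h2
    obtain ⟨i, j, hi, hiM, hj, hjM, hij⟩ := hB
    have h5 : i * j ≤ N1 + Q4 * Q4 + Q3 * Q3 := by
      have h6 : i * j ≤ M * M := Nat.mul_le_mul hiM hjM
      rcases hM with hM | hM
      · have h7 : M * M ≤ Q4 * Q4 := Nat.mul_le_mul hM hM
        omega
      · have h7 : M * M ≤ Q3 * Q3 := Nat.mul_le_mul hM hM
        omega
    exact ⟨u, v, huv, i * j, Nat.mul_pos hi hj, h5,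
      htrans u v _ _ (q u) (q v) hi hj b1 b2 c1 c2 b3 c3 hij⟩
  have pick : ∀ W : Set (Fin n), (∃ u ∈ W, 1 < ‖ι (y u)‖) →
      ∃ (b : Fin n) (l : Fin (N b)) (t : K), b ∈ W ∧ 0 < ‖t‖ ∧ ‖t‖ < 1 ∧ Bc p b (e b l) t W ∧
        (∀ u, 1 < ‖ι (y u)‖ → 1 ≤ e b l u) ∧
        ∀ u, 1 < ‖ι (z u)‖ → At p U (e b l u) (cf ι (f b l u)) (g u) t (q u) := by
    intro W hW
    obtain ⟨b, hbW, hb1, hb2⟩ : ∃ b ∈ W, 1 < ‖ι (y b)‖ ∧
        ((∀ u ∈ W, ‖ι (y u)‖ ≠ p) ∨ ‖ι (y b)‖ = p) := by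
      by_cases h : ∃ u ∈ W, ‖ι (y u)‖ = p
      · obtain ⟨u, huW, hu⟩ := h
        exact ⟨u, huW, by rw [hu]; exact hp1R, Or.inr hu⟩
      · push Not at h
        obtain ⟨u, huW, hu⟩ := hW
        exact ⟨u, huW, hu, Or.inl h⟩
    obtain ⟨t, l, ht0, ht1, hel, htm, hi⟩ := hbr b hb1
    refine ⟨b, l, t, hbW, ht0, ht1, ?_, fun u hu => (hnorm b l t ht0 ht1 hi u).1 hu, ?_⟩
    · rcases hb2 with h | h
      · exact Or.inl fun u hu hcr => h u hu ((hnorm b l t ht0 ht1 hi u).2 hcr)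
      · right
        unfold Cr
        rw [hel, htm, h]
    · intro u hu
      obtain ⟨b1, b2, b3⟩ := hq u hu
      refine ⟨b1, b2, ?_⟩
      rw [b3, hgc, hzK, hi u]
      rfl
  rcases hA with ⟨i, j, k, hij, hjk, hik', h1, h2⟩ | ⟨i, j, k, l, hij, hik', hil, hjk, hjl, hkl, h1, h2⟩
  · obtain ⟨zi, zj, d1⟩ := hdep i j hij h1
    obtain ⟨-, zk, d2⟩ := hdep j k hjk h2
    have d3 : Dep (q i) (q k) := dep_trans d1 d2
    by_cases ci : ‖ι (y i)‖ ≤ 1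
    · by_cases cj : ‖ι (y j)‖ ≤ 1
      · exact key3 i j hij zi zj d1 ci cj
      by_cases ck : ‖ι (y k)‖ ≤ 1
      · exact key3 i k hik' zi zk d3 ci ck
      push Not at cj ck
      obtain ⟨b, l, t, hbW, ht0, ht1, hBc, he, hAt⟩ := pick {i, j, k} ⟨j, by simp, cj⟩
      have hM := hM3 b l (i, j, k) hij hjk hik' hbW (Or.inr (Or.inr ⟨he j cj, he k ck⟩)) t q ht0
        ht1 (by
          intro u hu
          rcases hu with rfl | rfl | rfl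
          · exact hAt _ zi
          · exact hAt _ zj
          · exact hAt _ zk) hBc d1 d2 d3
      have hQ := hQ3 (⟨b, l⟩, (i, j, k))
      rcases hM with hM | hM | hM
      · exact key5 i j _ hij zi zj (Or.inr hQ) hM
      · exact key5 j k _ hjk zj zk (Or.inr hQ) hM
      · exact key5 i k _ hik' zi zk (Or.inr hQ) hM
    · push Not at ci
      by_cases cj : ‖ι (y j)‖ ≤ 1
      · by_cases ck : ‖ι (y k)‖ ≤ 1
        · exact key3 j k hjk zj zk d2 cj ck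
        push Not at ck
        obtain ⟨b, l, t, hbW, ht0, ht1, hBc, he, hAt⟩ := pick {i, j, k} ⟨i, by simp, ci⟩
        have hM := hM3 b l (i, j, k) hij hjk hik' hbW (Or.inr (Or.inl ⟨he i ci, he k ck⟩)) t q ht0
          ht1 (by
            intro u hu
            rcases hu with rfl | rfl | rfl
            · exact hAt _ zi
            · exact hAt _ zj
            · exact hAt _ zk) hBc d1 d2 d3
        have hQ := hQ3 (⟨b, l⟩, (i, j, k))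
        rcases hM with hM | hM | hM
        · exact key5 i j _ hij zi zj (Or.inr hQ) hM
        · exact key5 j k _ hjk zj zk (Or.inr hQ) hM
        · exact key5 i k _ hik' zi zk (Or.inr hQ) hM
      · push Not at cj
        obtain ⟨b, l, t, hbW, ht0, ht1, hBc, he, hAt⟩ := pick {i, j, k} ⟨i, by simp, ci⟩
        have hM := hM3 b l (i, j, k) hij hjk hik' hbW (Or.inl ⟨he i ci, he j cj⟩) t q ht0
          ht1 (by
            intro u hu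
            rcases hu with rfl | rfl | rfl
            · exact hAt _ zi
            · exact hAt _ zj
            · exact hAt _ zk) hBc d1 d2 d3
        have hQ := hQ3 (⟨b, l⟩, (i, j, k))
        rcases hM with hM | hM | hM
        · exact key5 i j _ hij zi zj (Or.inr hQ) hM
        · exact key5 j k _ hjk zj zk (Or.inr hQ) hM
        · exact key5 i k _ hik' zi zk (Or.inr hQ) hM
  · obtain ⟨zi, zj, d1⟩ := hdep i j hij h1
    obtain ⟨zk, zl, d2⟩ := hdep k l hkl h2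
    by_cases c1 : ‖ι (y i)‖ ≤ 1 ∧ ‖ι (y j)‖ ≤ 1
    · exact key3 i j hij zi zj d1 c1.1 c1.2
    by_cases c2 : ‖ι (y k)‖ ≤ 1 ∧ ‖ι (y l)‖ ≤ 1
    · exact key3 k l hkl zk zl d2 c2.1 c2.2
    have c1' : 1 < ‖ι (y i)‖ ∨ 1 < ‖ι (y j)‖ := by
      by_contra h
      push Not at h
      exact c1 h
    have c2' : 1 < ‖ι (y k)‖ ∨ 1 < ‖ι (y l)‖ := by
      by_contra h
      push Not at h
      exact c2 h
    obtain ⟨b, o, t, hbW, ht0, ht1, hBc, he, hAt⟩ := pick {i, j, k, l} (by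
      rcases c1' with h | h
      · exact ⟨i, by simp, h⟩
      · exact ⟨j, by simp, h⟩)
    have hM := hM4 b o (i, j, k, l) hij hik' hil hjk hjl hkl hbW
      (c1'.imp (he i) (he j)) (c2'.imp (he k) (he l)) t q ht0 ht1 (by
        intro u hu
        rcases hu with rfl | rfl | rfl | rfl
        · exact hAt _ zi
        · exact hAt _ zj
        · exact hAt _ zk
        · exact hAt _ zl) hBc d1 d2
    have hQ := hQ4 (⟨b, o⟩, (i, j, k, l))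
    rcases hM with hM | hM
    · exact key5 i j _ hij zi zj (Or.inl hQ) hM
    · exact key5 k l _ hkl zk zl (Or.inl hQ) hM

end Pool.Agent.ZPK.H85
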